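import Pool.Agent.W394.BQN.Stm

set_option autoImplicit false

open Polynomial TensorProduct

noncomputable section

namespace Pool.Agent.W456.BQN

open Pool.Agent.W394.BQN BQ

theorem idemFree_mv_mv (h2 : S_MAIN) (m k n : ℕ) (V D : Type) [CommRing V] [IsDomain V]
    [IsPrincipalIdealRing V] [CommRing D] (j : V →+* D) (hG : GoodN n V D j) :
    IdemFree (MvPolynomial (Fin m) (MvPolynomial (Fin k) D)) := by
  have h := h2 (m + k) n V D j hG
  have e : MvPolynomial (Fin (m + k)) D ≃+* MvPolynomial (Fin m) (MvPolynomial (Fin k) D) :=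
    ((MvPolynomial.renameEquiv D finSumFinEquiv.symm).trans
      (MvPolynomial.sumAlgEquiv D (Fin m) (Fin k))).toRingEquiv
  exact IdemFree.of_equiv e h

theorem idemFree_of_isLocGood (h1 : S_LG) (h2 : S_MAIN) (B : Type) [CommRing B]
    (h : IsLocGood B) (m : ℕ) : IdemFree (MvPolynomial (Fin m) B) := by
  obtain ⟨V, _, _, _, n, D, _, j, hG, k, q, hq, ⟨e⟩⟩ := h
  have hD : IsDomain D := (h1 n V D j hG).1
  have h4 := roitman q m (idemFree_mv_mv h2 m k n V D j hG)
  exact IdemFree.of_equiv (MvPolynomial.mapEquiv (Fin m) e.symm) h4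

theorem extended (h1 : S_LG) (h2 : S_MAIN) (A : Type) [CommRing A]
    (h : ∀ (m : Ideal A) [m.IsMaximal], IsLocGood (Localization.AtPrime m))
    (ι : Type) [Finite ι] (P : Type) [AddCommGroup P] [Module (MvPolynomial ι A) P]
    [Module.Finite (MvPolynomial ι A) P] [Module.Projective (MvPolynomial ι A) P] :
    ∃ (Q : Type) (_ : AddCommGroup Q) (_ : Module A Q),
      Nonempty (P ≃ₗ[MvPolynomial ι A] MvPolynomial ι A ⊗[A] Q) := by
  obtain ⟨m, ⟨e⟩⟩ := Finite.exists_equiv_fin ι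
  obtain ⟨n, f, g, hgf⟩ := exists_retract (R := MvPolynomial ι A) (P := P)
  let E : Matrix (Fin n) (Fin n) (MvPolynomial ι A) := LinearMap.toMatrix' (f ∘ₗ g)
  have hE : E * E = E := by
    have h1 : (f ∘ₗ g) ∘ₗ (f ∘ₗ g) = f ∘ₗ g := by
      calc (f ∘ₗ g) ∘ₗ (f ∘ₗ g) = f ∘ₗ (g ∘ₗ f) ∘ₗ g := rfl
        _ = f ∘ₗ g := by rw [hgf, LinearMap.id_comp]
    show LinearMap.toMatrix' (f ∘ₗ g) * LinearMap.toMatrix' (f ∘ₗ g) = _
    rw [← LinearMap.toMatrix'_comp, h1]
  let σ : MvPolynomial ι A ≃ₐ[A] MvPolynomial (Fin m) A := MvPolynomial.renameEquiv A e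
  have hE' : E.map σ * E.map σ = E.map σ := by
    rw [← Matrix.map_mul, hE]
  obtain ⟨U, V, hUV, hVU⟩ :=
    patch_mv m (fun q _ => idemFree_of_isLocGood h1 h2 _ (h q) m) (E.map σ) hE'
  let E₀ : Matrix (Fin n) (Fin n) A := (E.map σ).map (fun p => MvPolynomial.constantCoeff p)
  have hE₀ : E₀ * E₀ = E₀ := by
    have h1 : ((E.map σ) * (E.map σ)).map (MvPolynomial.constantCoeff (R := A) (σ := Fin m)) =
        (E.map σ).map (MvPolynomial.constantCoeff (R := A) (σ := Fin m)) := by rw [hE']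
    rw [Matrix.map_mul] at h1
    exact h1
  have h1 : U.map σ.symm * V.map σ.symm = LinearMap.toMatrix' (f ∘ₗ g) := by
    rw [← Matrix.map_mul, hUV]
    refine Matrix.ext fun i j => ?_
    exact σ.symm_apply_apply (E i j)
  have h2 : V.map σ.symm * U.map σ.symm = E₀.map (algebraMap A (MvPolynomial ι A)) := by
    rw [← Matrix.map_mul, hVU]
    refine Matrix.ext fun i j => ?_
    show σ.symm (MvPolynomial.C _) = MvPolynomial.C _
    exact σ.symm.commutes _
  exact extended_of_equiv f g hgf E₀ hE₀ (U.map σ.symm) (V.map σ.symm) h1 h2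

theorem free_global (h2 : S_MAIN) (n : ℕ) (V D : Type) [CommRing V] [IsDomain V]
    [IsPrincipalIdealRing V] [CommRing D] (j : V →+* D) (hG : GoodN n V D j)
    (ι : Type) [Finite ι] (P : Type) [AddCommGroup P] [Module (MvPolynomial ι D) P]
    [Module.Finite (MvPolynomial ι D) P] [Module.Projective (MvPolynomial ι D) P] :
    Module.Free (MvPolynomial ι D) P := by
  obtain ⟨m, ⟨e⟩⟩ := Finite.exists_equiv_fin ι
  have h : IdemFree (MvPolynomial ι D) :=
    IdemFree.of_equiv (MvPolynomial.renameEquiv D e.symm).toRingEquiv (h2 m n V D j hG)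
  exact h.free P

theorem regular (h3 : S_REG) (B : Type) [CommRing B] (h : IsLocGood B) :
    IsRegularLocalRing B := by
  obtain ⟨V, _, _, _, n, D, _, j, hG, k, q, hq, ⟨e⟩⟩ := h
  have hD : IsRegularRing D := h3 n V D j hG
  have h4 : IsRegularRing (MvPolynomial (Fin k) D) := inferInstance
  exact IsRegularLocalRing.of_ringEquiv e.symm

theorem t_FIN (h1 : S_LG) (h2 : S_MAIN) (h3 : S_REG) : S_FIN :=
  ⟨fun B _ h => regular h3 B h,
    fun A _ h ι _ P _ _ _ _ => extended h1 h2 A h ι P,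
    fun n V D _ _ _ _ j hG ι _ P _ _ _ _ => free_global h2 n V D j hG ι P⟩

end Pool.Agent.W456.BQN
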